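import Pool.Agent.Helper31.LW.Goals

/-!
# Packet LW-REFL (project LW, MP_6fb600_gt)
-/

open MeasureTheory Set
open scoped ENNReal Matrix
open Pool.Agent.Helper47.AQ

noncomputable section

namespace Pool.Agent.Helper17.LW

open Pool.Agent.Helper31.LQ Pool.Agent.Helper31.LW

/-- The reflection in the coordinate `k` preserves the volume. -/
theorem volume_rho {n : ℕ} (k : Fin n) (s : Set (Fin n → ℝ)) :
    volume (rho k '' s) = volume s := by
  obtain ⟨D, hD⟩ : ∃ D : Fin n → ℝ, D = Function.update (fun _ => 1) k (-1) := ⟨_, rfl⟩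
  have h1 : ∀ x : Fin n → ℝ, rho k x = Matrix.toLin' (Matrix.diagonal D) x := by
    intro x
    funext i
    rw [Matrix.toLin'_apply, Matrix.mulVec_diagonal, hD, rho]
    by_cases h : i = k
    · subst h
      simp
    · simp [Function.update_of_ne h]
  have h2 : LinearMap.det (Matrix.toLin' (Matrix.diagonal D)) = -1 := by
    rw [LinearMap.det_toLin', Matrix.det_diagonal, hD, Finset.prod_update_of_mem (Finset.mem_univ k)]
    simp
  have h3 : rho k '' s = Matrix.toLin' (Matrix.diagonal D) '' s := by
    apply image_congr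
    intro x _
    exact h1 x
  rw [h3, Measure.addHaar_image_linearMap, h2]
  simp

theorem lin_ch {d m : ℕ} (Z : Fin m → Fin d → ℝ) (x : Fin (d + m) → ℝ) (c : Fin d) :
    lin (ch Z) x c = x (Fin.castAdd m c) + ∑ l, x (Fin.natAdd d l) * Z l c := by
  unfold lin ch
  rw [Fin.sum_univ_add]
  simp only [Fin.append_left, Fin.append_right]
  rw [Finset.sum_eq_single c]
  · simp
  · intro a _ ha
    rw [Pi.single_apply, if_neg (fun h => ha h.symm), mul_zero]
  · intro h
    exact absurd (Finset.mem_univ c) h

theorem lin_rho {e m : ℕ} (Z : Fin m → Fin e → ℝ) (b : Fin m → ℝ)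
    (x : Fin (e + 1 + m) → ℝ) :
    lin (ch (top b Z)) (rho (Fin.castAdd m 0) x) = rho 0 (lin (ch (top (-b) Z)) x) := by
  have hn : ∀ l : Fin m, (Fin.natAdd (e + 1) l : Fin (e + 1 + m)) ≠ Fin.castAdd m 0 := by
    intro l h
    have := congrArg Fin.val h
    simp at this
  have hr : ∀ l : Fin m, rho (Fin.castAdd m 0) x (Fin.natAdd (e + 1) l) =
      x (Fin.natAdd (e + 1) l) := by
    intro l
    rw [rho, Function.update_of_ne (hn l)]
  funext c
  rw [lin_ch]
  refine Fin.cases ?_ (fun i => ?_) c
  · rw [rho, Function.update_self, rho, Function.update_self, lin_ch]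
    simp only [top, Fin.cons_zero, Pi.neg_apply]
    have : ∀ l : Fin m, Function.update x (Fin.castAdd m 0) (-x (Fin.castAdd m 0))
        (Fin.natAdd (e + 1) l) = x (Fin.natAdd (e + 1) l) := fun l =>
      Function.update_of_ne (hn l) _ _
    simp only [this, mul_neg, Finset.sum_neg_distrib]
    ring
  · have h0 : (Fin.castAdd m i.succ : Fin (e + 1 + m)) ≠ Fin.castAdd m 0 := by
      intro h
      have := congrArg Fin.val h
      simp at this
    have h1 : rho (Fin.castAdd m 0) x (Fin.castAdd m i.succ) = x (Fin.castAdd m i.succ) := by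
      rw [rho, Function.update_of_ne h0]
    have h2 : rho 0 (lin (ch (top (-b) Z)) x) i.succ = lin (ch (top (-b) Z)) x i.succ := by
      rw [rho, Function.update_of_ne (Fin.succ_ne_zero i)]
    rw [h1, h2, lin_ch]
    simp only [hr, top, Fin.cons_succ]

theorem gREFL : Pool.Agent.Helper31.LW.REFL := by
  intro e m K Z
  have key : ∀ b : Fin m → ℝ, vN (rho (Fin.castAdd m 0) '' K) Z b = vN K Z (-b) := by
    intro b
    have h : lin (ch (top b Z)) '' (rho (Fin.castAdd m 0) '' K) =
        rho 0 '' (lin (ch (top (-b) Z)) '' K) := by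
      rw [image_image, image_image]
      apply image_congr
      intro x _
      exact lin_rho Z b x
    rw [vN, vN, h, volume_rho]
  refine ⟨key, fun r => ?_⟩
  unfold Ps
  simp only [key]
  exact lintegral_neg_eq_self (fun b : Fin m → ℝ => ENNReal.ofReal (Real.exp (-(r * vN K Z b))))

end Pool.Agent.Helper17.LW
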